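import Mathlib

namespace Pool.Agent.Results.MP_59a3d4_lc.NoGoodSplitting

open Submodule Module

universe u v

section

variable {F : Type u} [Field F] {R : Type v} [AddCommGroup R] [Module F R] {ι : Type v}
variable (β : Basis ((ℕ ⊕ ℕ) ⊕ ι) F R)

/-- the basis vectors of the first summand -/
noncomputable def uu (n : ℕ) : R := β (Sum.inl (Sum.inl n))
/-- the countably many special basis vectors of the second summand -/
noncomputable def ww (n : ℕ) : R := β (Sum.inl (Sum.inr n))
/-- the remaining basis vectors -/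
noncomputable def ee (i : ι) : R := β (Sum.inr i)

/-- the new basis vectors, as images of the old ones -/
noncomputable def img : (ℕ ⊕ ℕ) ⊕ ι → R
  | Sum.inl (Sum.inl n) => uu β (n + 1) + ww β n
  | Sum.inl (Sum.inr n) => uu β n - uu β (n + 1) - ww β n
  | Sum.inr i => ee β i

/-- the images under the inverse map -/
noncomputable def imgInv : (ℕ ⊕ ℕ) ⊕ ι → R
  | Sum.inl (Sum.inl n) => uu β n + ww β n
  | Sum.inl (Sum.inr n) => uu β n - uu β (n + 1) - ww β (n + 1)
  | Sum.inr i => ee β i

lemma constr_u (f : (ℕ ⊕ ℕ) ⊕ ι → R) (n : ℕ) :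
    β.constr F f (uu β n) = f (Sum.inl (Sum.inl n)) := by
  rw [uu, Basis.constr_basis]

lemma constr_w (f : (ℕ ⊕ ℕ) ⊕ ι → R) (n : ℕ) :
    β.constr F f (ww β n) = f (Sum.inl (Sum.inr n)) := by
  rw [ww, Basis.constr_basis]

lemma constr_e (f : (ℕ ⊕ ℕ) ⊕ ι → R) (i : ι) :
    β.constr F f (ee β i) = f (Sum.inr i) := by
  rw [ee, Basis.constr_basis]

/-- the change of basis -/
noncomputable def T : R ≃ₗ[F] R :=
  LinearEquiv.ofLinearMap (β.constr F (img β)) (β.constr F (imgInv β))
    (by
      apply β.ext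
      rintro ((n | n) | i)
      · rw [LinearMap.comp_apply, Basis.constr_basis, imgInv, map_add, constr_u, constr_w]
        simp only [img, LinearMap.id_apply, uu, ww]
        abel
      · rw [LinearMap.comp_apply, Basis.constr_basis, imgInv, map_sub, map_sub, constr_u, constr_u,
          constr_w]
        simp only [img, LinearMap.id_apply, uu, ww]
        abel
      · rw [LinearMap.comp_apply, Basis.constr_basis, imgInv, constr_e]
        simp only [img, LinearMap.id_apply, ee])
    (by
      apply β.ext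
      rintro ((n | n) | i)
      · rw [LinearMap.comp_apply, Basis.constr_basis, img, map_add, constr_u, constr_w]
        simp only [imgInv, LinearMap.id_apply, uu, ww]
        abel
      · rw [LinearMap.comp_apply, Basis.constr_basis, img, map_sub, map_sub, constr_u, constr_u,
          constr_w]
        simp only [imgInv, LinearMap.id_apply, uu, ww]
        abel
      · rw [LinearMap.comp_apply, Basis.constr_basis, img, constr_e]
        simp only [imgInv, LinearMap.id_apply, ee])

/-- the new basis -/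
noncomputable def β' : Basis ((ℕ ⊕ ℕ) ⊕ ι) F R := β.map (T β)

lemma β'_apply (i : (ℕ ⊕ ℕ) ⊕ ι) : β' β i = img β i := by
  simp [β', T]

/-- index set of the first summand -/
def S : Set ((ℕ ⊕ ℕ) ⊕ ι) := Set.range (fun n => Sum.inl (Sum.inl n))

lemma compl : IsCompl (span F (β '' (S : Set ((ℕ ⊕ ℕ) ⊕ ι)))) (span F (β '' (S : Set ((ℕ ⊕ ℕ) ⊕ ι))ᶜ)) := by
  constructor
  · exact β.linearIndependent.disjoint_span_image disjoint_compl_right
  · rw [codisjoint_iff, ← span_union, ← Set.image_union, Set.union_compl_self, Set.image_univ,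
      β.span_eq]

/-- a linear functional given by its values on the old basis -/
noncomputable def fn (g : (ℕ ⊕ ℕ) ⊕ ι → F) : R →ₗ[F] F := β.constr F g

lemma fn_u (g : (ℕ ⊕ ℕ) ⊕ ι → F) (n : ℕ) : fn β g (uu β n) = g (Sum.inl (Sum.inl n)) := by
  rw [fn, uu, Basis.constr_basis]

lemma fn_w (g : (ℕ ⊕ ℕ) ⊕ ι → F) (n : ℕ) : fn β g (ww β n) = g (Sum.inl (Sum.inr n)) := by
  rw [fn, ww, Basis.constr_basis]

lemma fn_e (g : (ℕ ⊕ ℕ) ⊕ ι → F) (i : ι) : fn β g (ee β i) = g (Sum.inr i) := by
  rw [fn, ee, Basis.constr_basis]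

lemma fn_a (g : (ℕ ⊕ ℕ) ⊕ ι → F) (n : ℕ) : fn β g (img β (Sum.inl (Sum.inl n))) =
    g (Sum.inl (Sum.inl (n + 1))) + g (Sum.inl (Sum.inr n)) := by
  rw [img, map_add, fn_u, fn_w]

lemma fn_b (g : (ℕ ⊕ ℕ) ⊕ ι → F) (n : ℕ) : fn β g (img β (Sum.inl (Sum.inr n))) =
    g (Sum.inl (Sum.inl n)) - g (Sum.inl (Sum.inl (n + 1))) - g (Sum.inl (Sum.inr n)) := by
  rw [img, map_sub, map_sub, fn_u, fn_u, fn_w]

/-- a functional killing two sets kills the sum of their spans -/
lemma kill {g : R →ₗ[F] F} {X Y : Set R} (hX : ∀ x ∈ X, g x = 0) (hY : ∀ y ∈ Y, g y = 0)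
    (h : IsCompl (span F X) (span F Y)) : g = 0 := by
  have hX' : span F X ≤ LinearMap.ker g := span_le.mpr (fun x hx => hX x hx)
  have hY' : span F Y ≤ LinearMap.ker g := span_le.mpr (fun x hx => hY x hx)
  have := h.sup_eq_top
  rw [← LinearMap.ker_eq_top, eq_top_iff, ← this]
  exact sup_le hX' hY'

lemma no_split (B₁ B₂ : Set R) (hU : B₁ ∪ B₂ = Set.range (β' β)) (hD : Disjoint B₁ B₂)
    (h1 : IsCompl (span F (β '' (S : Set ((ℕ ⊕ ℕ) ⊕ ι)))) (span F B₁))
    (h2 : IsCompl (span F (β '' (S : Set ((ℕ ⊕ ℕ) ⊕ ι))ᶜ)) (span F B₂)) : False := by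
  have hB1 : ∀ x ∈ B₁, ∃ i, img β i = x := by
    intro x hx
    have : x ∈ Set.range (β' β) := by rw [← hU]; exact Or.inl hx
    obtain ⟨i, hi⟩ := this
    exact ⟨i, by rw [← β'_apply, hi]⟩
  have hB2 : ∀ x ∈ B₂, ∃ i, img β i = x := by
    intro x hx
    have : x ∈ Set.range (β' β) := by rw [← hU]; exact Or.inr hx
    obtain ⟨i, hi⟩ := this
    exact ⟨i, by rw [← β'_apply, hi]⟩
  have hdis : ∀ x, x ∈ B₁ → x ∉ B₂ := fun x hx hx2 => Set.disjoint_left.mp hD hx hx2
  -- step 2
  have step : ∀ m, img β (Sum.inl (Sum.inl m)) ∈ B₁ ∨ img β (Sum.inl (Sum.inr m)) ∈ B₁ := by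
    intro m
    by_contra hcon
    push Not at hcon
    obtain ⟨ha, hb⟩ := hcon
    classical
    let g : (ℕ ⊕ ℕ) ⊕ ι → F := fun i => if i = Sum.inl (Sum.inr m) then 1 else 0
    have hz : fn β g = 0 := by
      apply kill _ _ h1
      · rintro x ⟨i, ⟨n, rfl⟩, rfl⟩
        change fn β g (uu β n) = 0
        rw [fn_u]
        simp [g]
      · intro x hx
        obtain ⟨i, rfl⟩ := hB1 x hx
        rcases i with (n | n) | i
        · rw [fn_a]
          have : n ≠ m := by rintro rfl; exact ha hx
          simp [g, this]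
        · rw [fn_b]
          have : n ≠ m := by rintro rfl; exact hb hx
          simp [g, this]
        · change fn β g (ee β i) = 0
          rw [fn_e]
          simp [g]
    have : fn β g (ww β m) = 1 := by rw [fn_w]; simp [g]
    rw [hz] at this
    simp at this
  classical
  by_cases hA : ∃ m, img β (Sum.inl (Sum.inl m)) ∈ B₂
  · let m := Nat.find hA
    have hm : img β (Sum.inl (Sum.inl m)) ∈ B₂ := Nat.find_spec hA
    have hmin : ∀ n < m, img β (Sum.inl (Sum.inl n)) ∉ B₂ := fun n hn => Nat.find_min hA hn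
    have hbm : img β (Sum.inl (Sum.inr m)) ∉ B₂ := by
      rcases step m with h | h
      · exact absurd hm (hdis _ h)
      · exact hdis _ h
    let g : (ℕ ⊕ ℕ) ⊕ ι → F := fun i => match i with
      | Sum.inl (Sum.inl n) => if n ≤ m then 1 else 0
      | _ => 0
    have hz : fn β g = 0 := by
      apply kill _ _ h2
      · rintro x ⟨i, hi, rfl⟩
        rcases i with (n | n) | i
        · exact absurd ⟨n, rfl⟩ hi
        · change fn β g (ww β n) = 0
          rw [fn_w]
        · change fn β g (ee β i) = 0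
          rw [fn_e]
      · intro x hx
        obtain ⟨i, rfl⟩ := hB2 x hx
        rcases i with (n | n) | i
        · rw [fn_a]
          have : ¬ n < m := fun h => hmin n h hx
          have h' : ¬ (n + 1 ≤ m) := by omega
          simp [g, h']
        · rw [fn_b]
          have hne : n ≠ m := by
            intro h
            rw [h] at hx
            exact hbm hx
          rcases lt_or_gt_of_ne hne with h | h
          · have h' : n ≤ m := h.le
            have h'' : n + 1 ≤ m := h
            simp [g, h', h'']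
          · have h' : ¬ n ≤ m := by omega
            have h'' : ¬ n + 1 ≤ m := by omega
            simp [g, h', h'']
        · change fn β g (ee β i) = 0
          rw [fn_e]
    have : fn β g (uu β 0) = 1 := by rw [fn_u]; simp [g]
    rw [hz] at this
    simp at this
  · push Not at hA
    let g : (ℕ ⊕ ℕ) ⊕ ι → F := fun i => match i with
      | Sum.inl (Sum.inl n) => 1
      | _ => 0
    have hz : fn β g = 0 := by
      apply kill _ _ h2
      · rintro x ⟨i, hi, rfl⟩
        rcases i with (n | n) | i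
        · exact absurd ⟨n, rfl⟩ hi
        · change fn β g (ww β n) = 0
          rw [fn_w]
        · change fn β g (ee β i) = 0
          rw [fn_e]
      · intro x hx
        obtain ⟨i, rfl⟩ := hB2 x hx
        rcases i with (n | n) | i
        · exact absurd hx (hA n)
        · rw [fn_b]
          simp [g]
        · change fn β g (ee β i) = 0
          rw [fn_e]
    have : fn β g (uu β 0) = 1 := by rw [fn_u]
    rw [hz] at this
    simp at this

end

/-- Over every field, every infinite-dimensional vector space has a direct sum decomposition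
`V₁ ⊕ V₂` and a basis `B` which admits no good splitting with respect to `(V₁, V₂)`. -/
theorem result : ∀ (F : Type u) [Field F] (R : Type v) [AddCommGroup R] [Module F R],
    ¬ FiniteDimensional F R →
    ∃ (V₁ V₂ : Submodule F R) (B : Set R),
      IsCompl V₁ V₂ ∧ LinearIndependent F ((↑) : B → R) ∧ span F B = ⊤ ∧
      ∀ B₁ B₂ : Set R, B₁ ∪ B₂ = B → Disjoint B₁ B₂ →
        ¬ (IsCompl V₁ (span F B₁) ∧ IsCompl V₂ (span F B₂)) := by
  intro F _ R _ _ hinf
  let b := Basis.ofVectorSpace F R
  have hI : Infinite (Basis.ofVectorSpaceIndex F R) := by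
    by_contra hcon
    rw [not_infinite_iff_finite] at hcon
    exact hinf (Module.Finite.of_basis b)
  have hcard : Cardinal.mk (Basis.ofVectorSpaceIndex F R) =
      Cardinal.mk ((ℕ ⊕ ℕ) ⊕ (Basis.ofVectorSpaceIndex F R)) := by
    rw [Cardinal.mk_sum]
    simp only [Cardinal.lift_id, Cardinal.mk_sum, Cardinal.mk_nat, Cardinal.lift_aleph0,
      Cardinal.aleph0_add_aleph0, Cardinal.lift_uzero]
    rw [Cardinal.add_eq_right (Cardinal.aleph0_le_mk _) (Cardinal.aleph0_le_mk _)]
  obtain ⟨e⟩ := Cardinal.eq.mp hcard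
  let β := b.reindex e
  refine ⟨span F (β '' S), span F (β '' (S)ᶜ), Set.range (β' β), compl β,
    (β' β).linearIndependent.linearIndepOn_id, (β' β).span_eq, ?_⟩
  rintro B₁ B₂ hU hD ⟨h1, h2⟩
  exact no_split β B₁ B₂ hU hD h1 h2

end Pool.Agent.Results.MP_59a3d4_lc.NoGoodSplitting
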